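import Pool.Agent.Helper57.IA.St

/-!
# Project IA, part P, module RS2: existence of the random reservoir
-/

set_option autoImplicit false

namespace Pool.Agent.Helper33.IA57

open Finset Pool.Agent.Helper93.IA Pool.Agent.Helper57.IA

private theorem not_mem_of_zero {X Y ι : Type} [Fintype X] [Fintype Y] (p : ι → ℝ)
    (j : X × Y → ι) (σ : ι → Bool) (hσ : ∀ i, wB p i (σ i) ≠ 0) (x : X) (y : Y)
    (h : p (j (x, y)) = 0) : (x, y) ∉ qs j σ := by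
  intro hm
  have h1 : σ (j (x, y)) = true := by
    have h2 := hm
    unfold qs at h2
    rw [Finset.mem_filter] at h2
    exact h2.2
  have h3 := hσ (j (x, y))
  rw [h1] at h3
  apply h3
  unfold wB
  rw [if_pos rfl]
  exact h

private theorem core {ι : Type} [Fintype ι] [DecidableEq ι] (p : ι → ℝ)
    (hp : ∀ i, 0 ≤ p i ∧ p i ≤ 1) (D1 D2 D3 : (ι → Bool) → Prop) (q : ℝ)
    (h1 : Pr (wB p) (fun σ => ¬ D1 σ) ≤ q) (h2 : Pr (wB p) (fun σ => ¬ D2 σ) ≤ q)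
    (h3 : Pr (wB p) (fun σ => ¬ D3 σ) ≤ q) (hq : 3 * q < 1) :
    ∃ σ : ι → Bool, (∀ i, wB p i (σ i) ≠ 0) ∧ D1 σ ∧ D2 σ ∧ D3 σ := by
  have h0 : ∀ i u, 0 ≤ wB p i u := fun i u => wB_nonneg p hp i u
  have hs : ∀ i, ∑ u, wB p i u = 1 := fun i => wB_sum p i
  have e1 := pr_or (wB p) h0 (fun σ => ¬ D1 σ) (fun σ => ¬ D2 σ ∨ ¬ D3 σ)
  have e2 := pr_or (wB p) h0 (fun σ => ¬ D2 σ) (fun σ => ¬ D3 σ)
  have e3 : Pr (wB p) (fun σ => ¬ D1 σ ∨ (¬ D2 σ ∨ ¬ D3 σ)) < 1 := by linarith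
  obtain ⟨σ, hσ, hn⟩ := exists_not_supp (wB p) hs _ e3
  refine ⟨σ, hσ, ?_, ?_, ?_⟩
  · by_contra hc
    exact hn (Or.inl hc)
  · by_contra hc
    exact hn (Or.inr (Or.inl hc))
  · by_contra hc
    exact hn (Or.inr (Or.inr hc))

private theorem inst {α β γ ι : Type} [Fintype α] [Fintype β] [Fintype γ] [DecidableEq α]
    [DecidableEq β] [DecidableEq γ] [Fintype ι] [DecidableEq ι] (hBRN : StBRN) (hCNT : StCNT)
    (hDEV : StDEV) (jA : α × β → ι) (jB : β × γ → ι) (jC : γ × α → ι) (p : ι → ℝ) (n : ℕ) (η : ℝ)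
    (A : Finset (α × β)) (B : Finset (β × γ)) (C : Finset (γ × α)) (U1 W1 : Finset α)
    (U2 W2 : Finset β) (U3 W3 : Finset γ) (hn : 0 < n) (hα : Fintype.card α = n)
    (hβ : Fintype.card β = n) (hγ : Fintype.card γ = n) (iA : Function.Injective jA)
    (iB : Function.Injective jB) (iC : Function.Injective jC) (hAB : ∀ e e', jA e ≠ jB e')
    (hBC : ∀ e e', jB e ≠ jC e') (hCA : ∀ e e', jC e ≠ jA e')
    (hp : ∀ i, 0 ≤ p i ∧ p i ≤ 1) (hη0 : 0 < η) (hη1 : η ≤ 1)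
    (hnum : 54 * (n : ℝ) ^ 2 * Real.exp (-(η / 16) * (η / 2 * n) + 2 * (η / 16) ^ 2 * n) < 1) :
    ∃ σ : ι → Bool, (∀ i, wB p i (σ i) ≠ 0) ∧
      Dev (η / 2 * n) B (qs jA σ) (qs jB σ) (qs jC σ) (pe p jA) (pe p jB) (pe p jC)
        U2 W2 U3 W3 ∧
      Dev (η / 2 * n) C (qs jB σ) (qs jC σ) (qs jA σ) (pe p jB) (pe p jC) (pe p jA)
        U3 W3 U1 W1 ∧
      Dev (η / 2 * n) A (qs jC σ) (qs jA σ) (qs jB σ) (pe p jC) (pe p jA) (pe p jB)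
        U1 W1 U2 W2 := by
  have l0 : 0 ≤ η / 16 := by linarith
  have l1 : η / 16 ≤ 1 := by linarith
  refine core p hp _ _ _
    (18 * (n : ℝ) ^ 2 * Real.exp (-(η / 16) * (η / 2 * n) + 2 * (η / 16) ^ 2 * n)) ?_ ?_ ?_ ?_
  · exact hDEV hBRN hCNT α β γ ι jA jB jC p n (η / 16) (η / 2 * n) B U2 W2 U3 W3 hn hα hβ hγ
      iA iB iC hAB hBC hCA hp l0 l1
  · exact hDEV hBRN hCNT β γ α ι jB jC jA p n (η / 16) (η / 2 * n) C U3 W3 U1 W1 hn hβ hγ hα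
      iB iC iA hBC hCA hAB hp l0 l1
  · exact hDEV hBRN hCNT γ α β ι jC jA jB p n (η / 16) (η / 2 * n) A U1 W1 U2 W2 hn hγ hα hβ
      iC iA iB hCA hAB hBC hp l0 l1
  · have : 3 * (18 * (n : ℝ) ^ 2 *
        Real.exp (-(η / 16) * (η / 2 * n) + 2 * (η / 16) ^ 2 * n)) =
        54 * (n : ℝ) ^ 2 * Real.exp (-(η / 16) * (η / 2 * n) + 2 * (η / 16) ^ 2 * n) := by ring
    rw [this]
    exact hnum

/-- The probabilities on the three parts of the index type. -/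
private def pp {α β γ : Type} (PA : α → β → ℝ) (PB : β → γ → ℝ) (PC : γ → α → ℝ) :
    (α × β) ⊕ (β × γ) ⊕ (γ × α) → ℝ :=
  Sum.elim (fun e => PA e.1 e.2) (Sum.elim (fun e => PB e.1 e.2) (fun e => PC e.1 e.2))

theorem hRS2 : StRS2 := by
  intro hBRN hCNT hDEV hRN η hη0 hη1
  obtain ⟨n0, hn0⟩ := hRN η hη0
  refine ⟨n0, ?_⟩
  intro α β γ _ _ _ _ _ _ n A B C PA PB PC U1 W1 U2 W2 U3 W3 hn hα hβ hγ hPA hPB hPC
  obtain ⟨hnpos, hnum⟩ := hn0 n hn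
  have hp : ∀ i, 0 ≤ pp PA PB PC i ∧ pp PA PB PC i ≤ 1 := by
    rintro (e | e | e)
    · exact hPA e.1 e.2
    · exact hPB e.1 e.2
    · exact hPC e.1 e.2
  obtain ⟨σ, hσ, d1', d2', d3'⟩ := inst (α := α) (β := β) (γ := γ)
    (ι := (α × β) ⊕ (β × γ) ⊕ (γ × α)) hBRN hCNT hDEV (fun e => Sum.inl e)
    (fun e => Sum.inr (Sum.inl e)) (fun e => Sum.inr (Sum.inr e)) (pp PA PB PC) n η A B C
    U1 W1 U2 W2 U3 W3 hnpos hα hβ hγ (fun x y h => Sum.inl_injective h)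
    (fun x y h => Sum.inl_injective (Sum.inr_injective h))
    (fun x y h => Sum.inr_injective (Sum.inr_injective h))
    (fun e e' h => by simp at h) (fun e e' h => by simp at h) (fun e e' h => by simp at h)
    hp hη0 hη1 hnum
  refine ⟨_, _, _, ?_, ?_, ?_, d1', d2', d3'⟩
  · intro a b h
    exact not_mem_of_zero (pp PA PB PC) _ σ hσ a b h
  · intro b c h
    exact not_mem_of_zero (pp PA PB PC) _ σ hσ b c h
  · intro c a h
    exact not_mem_of_zero (pp PA PB PC) _ σ hσ c a h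

end Pool.Agent.Helper33.IA57
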